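import Pool.Agent.Helper3.AK.Goals3

/-!
# OPA: the abstract operator lemma
-/

namespace Pool.Agent.Helper93.AKOPA

open Finset Pool.Agent.Helper3.AK

variable {E : Type} [NormedAddCommGroup E] [InnerProductSpace ℝ E] [FiniteDimensional ℝ E]

omit [FiniteDimensional ℝ E] in
theorem norm_sq_eq {ι : Type} [Fintype ι] (e : OrthonormalBasis ι ℝ E) (v : E) :
    ‖v‖ ^ 2 = ∑ i, (inner ℝ (e i) v) ^ 2 := by
  rw [← e.sum_sq_norm_inner_right v]
  refine Finset.sum_congr rfl fun i _ => ?_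
  rw [Real.norm_eq_abs, sq_abs]

omit [FiniteDimensional ℝ E] in
theorem inner_eq {ι : Type} [Fintype ι] (e : OrthonormalBasis ι ℝ E) (v w : E) :
    inner ℝ v w = ∑ i, inner ℝ (e i) v * inner ℝ (e i) w := by
  rw [← e.sum_inner_mul_inner v w]
  refine Finset.sum_congr rfl fun i _ => ?_
  rw [real_inner_comm]

omit [FiniteDimensional ℝ E] in
theorem inner_pow {L : E →ₗ[ℝ] E} (hL : ∀ v w, inner ℝ (L v) w = inner ℝ v (L w)) {u : E} {μ : ℝ}
    (hu : L u = μ • u) (m : ℕ) (v : E) : inner ℝ u ((L ^ m) v) = μ ^ m * inner ℝ u v := by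
  induction m with
  | zero => simp
  | succ m ih =>
    rw [pow_succ', Module.End.mul_apply, ← hL, hu, inner_smul_left, ih, pow_succ']
    simp only [conj_trivial]
    ring

/-- A symmetric operator has an eigenvalue which is at least the Rayleigh quotient. -/
theorem exists_eig (G : E →ₗ[ℝ] E) (hG : ∀ v w, inner ℝ (G v) w = inner ℝ v (G w)) (v : E)
    (hv : v ≠ 0) (c : ℝ) (h : c * ‖v‖ ^ 2 ≤ inner ℝ (G v) v) :
    ∃ (w : E) (lam : ℝ), w ≠ 0 ∧ G w = lam • w ∧ c ≤ lam := by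
  by_contra hcon
  push Not at hcon
  have hs : G.IsSymmetric := hG
  let e := hs.eigenvectorBasis (n := Module.finrank ℝ E) rfl
  let μ := hs.eigenvalues (n := Module.finrank ℝ E) rfl
  have he : ∀ i, G (e i) = μ i • e i := fun i => hs.apply_eigenvectorBasis rfl i
  have he0 : ∀ i, e i ≠ 0 := fun i => e.orthonormal.ne_zero i
  have hlt : ∀ i, μ i < c := fun i => hcon (e i) (μ i) (he0 i) (he i)
  have h1 : inner ℝ (G v) v = ∑ i, μ i * (inner ℝ (e i) v) ^ 2 := by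
    rw [inner_eq e]
    refine Finset.sum_congr rfl fun i _ => ?_
    rw [← hG, he, inner_smul_left]
    simp only [conj_trivial]
    ring
  rw [h1, norm_sq_eq e, Finset.mul_sum] at h
  have h2 : ∀ i ∈ (univ : Finset (Fin (Module.finrank ℝ E))),
      μ i * (inner ℝ (e i) v) ^ 2 ≤ c * (inner ℝ (e i) v) ^ 2 := fun i _ =>
    mul_le_mul_of_nonneg_right (hlt i).le (sq_nonneg _)
  have h3 := (Finset.sum_eq_sum_iff_of_le h2).1 (le_antisymm (Finset.sum_le_sum h2) h)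
  apply hv
  have h4 : ‖v‖ ^ 2 = 0 := by
    rw [norm_sq_eq e]
    refine Finset.sum_eq_zero fun i hi => ?_
    have h5 := h3 i hi
    have h6 : (c - μ i) * (inner ℝ (e i) v) ^ 2 = 0 := by linarith
    rcases mul_eq_zero.1 h6 with h7 | h7
    · exact absurd h7 (sub_pos.2 (hlt i)).ne'
    · exact h7
  exact norm_eq_zero.1 (pow_eq_zero_iff (two_ne_zero) |>.1 h4)

theorem opa : S_OPA := by
  intro E _ _ _ L Y Z m ε₁ a b hL hL0 hL1 hY hYZ hZY hε hε1 ha hb hab f hf hLf hYf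
  have hs : L.IsSymmetric := hL
  let e := hs.eigenvectorBasis (n := Module.finrank ℝ E) rfl
  let μ := hs.eigenvalues (n := Module.finrank ℝ E) rfl
  have he : ∀ i, L (e i) = μ i • e i := fun i => hs.apply_eigenvectorBasis rfl i
  have hen : ∀ i, ‖e i‖ = 1 := fun i => e.orthonormal.1 i
  have hμe : ∀ i, inner ℝ (L (e i)) (e i) = μ i := by
    intro i
    rw [he, inner_smul_left, real_inner_self_eq_norm_sq, hen]
    simp
  have hμ0 : ∀ i, 0 ≤ μ i := fun i => by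
    rw [← hμe i]
    exact hL0 _
  have hμ1 : ∀ i, μ i ≤ 1 := fun i => by
    have h := hL1 (e i)
    rw [hμe, hen] at h
    simpa using h
  -- isometries
  have hYin : ∀ u v, inner ℝ (Y u) (Y v) = inner ℝ u v := fun u v =>
    LinearIsometry.inner_map_map (⟨Y, hY⟩ : E →ₗᵢ[ℝ] E) u v
  have hYadj : ∀ u v, inner ℝ (Y u) v = inner ℝ u (Z v) := by
    intro u v
    rw [← hYin u (Z v), hYZ]
  have hZn : ∀ v, ‖Z v‖ = ‖v‖ := fun v => by
    rw [← hY (Z v), hYZ]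
  -- the index set
  classical
  let S : Finset (Fin (Module.finrank ℝ E)) := univ.filter fun i => 1 - ε₁ ≤ μ i
  let x : Fin (Module.finrank ℝ E) → ℝ := fun i => inner ℝ (e i) f
  have hcoef : ∀ (c : Fin (Module.finrank ℝ E) → ℝ) (j : Fin (Module.finrank ℝ E)),
      inner ℝ (e j) (∑ i ∈ S, c i • e i) = if j ∈ S then c j else 0 := by
    intro c j
    rw [inner_sum]
    have h1 : ∀ i ∈ S, inner ℝ (e j) (c i • e i) = if j = i then c i else 0 := by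
      intro i _
      rw [inner_smul_right, orthonormal_iff_ite.1 e.orthonormal j i]
      split_ifs <;> simp
    rw [Finset.sum_congr rfl h1, Finset.sum_ite_eq]
  let f₁ : E := ∑ i ∈ S, x i • e i
  have hf1c : ∀ j, inner ℝ (e j) f₁ = if j ∈ S then x j else 0 := hcoef x
  have hsub : ∀ j, inner ℝ (e j) (f - f₁) = if j ∈ S then 0 else x j := by
    intro j
    rw [inner_sub_right, hf1c]
    split_ifs
    · exact sub_self _
    · exact sub_zero _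
  -- the norm of `f - f₁`
  have hfn : ‖f‖ ^ 2 = ∑ i, x i ^ 2 := norm_sq_eq e f
  have hLfs : inner ℝ (L f) f = ∑ i, μ i * x i ^ 2 := by
    rw [inner_eq e]
    refine Finset.sum_congr rfl fun i _ => ?_
    rw [← hL, he, inner_smul_left]
    simp only [conj_trivial]
    ring
  have hdiff : ε₁ * ‖f - f₁‖ ^ 2 ≤ a * ‖f‖ ^ 2 := by
    have h1 : ε₁ * ‖f - f₁‖ ^ 2 ≤ ∑ i, (1 - μ i) * x i ^ 2 := by
      rw [norm_sq_eq e, Finset.mul_sum]
      refine Finset.sum_le_sum fun i _ => ?_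
      rw [hsub]
      split_ifs with hi
      · have := mul_nonneg (sub_nonneg.2 (hμ1 i)) (sq_nonneg (x i))
        simpa using this
      · have hi' : ¬ 1 - ε₁ ≤ μ i := fun h => hi (Finset.mem_filter.2 ⟨Finset.mem_univ _, h⟩)
        exact mul_le_mul_of_nonneg_right (by linarith) (sq_nonneg _)
    have h2 : ∑ i, (1 - μ i) * x i ^ 2 = ‖f‖ ^ 2 - inner ℝ (L f) f := by
      rw [hfn, hLfs, ← Finset.sum_sub_distrib]
      exact Finset.sum_congr rfl fun i _ => by ring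
    linarith
  have hfpos : 0 < ‖f‖ := norm_pos_iff.2 hf
  have hd : ‖f - f₁‖ ≤ √(a / ε₁) * ‖f‖ := by
    have h0 : ‖f - f₁‖ ^ 2 ≤ (a / ε₁) * ‖f‖ ^ 2 := by
      rw [div_mul_eq_mul_div, le_div_iff₀ hε]
      linarith
    have h := Real.abs_le_sqrt h0
    rw [abs_of_nonneg (norm_nonneg _), Real.sqrt_mul (div_nonneg ha hε.le),
      Real.sqrt_sq hfpos.le] at h
    exact h
  have hYd : ‖Y f - f‖ ≤ √b * ‖f‖ := by
    have h := Real.abs_le_sqrt hYf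
    rw [abs_of_nonneg (norm_nonneg _), Real.sqrt_mul hb, Real.sqrt_sq hfpos.le] at h
    exact h
  have hb0 : 0 ≤ √b := Real.sqrt_nonneg _
  have ha0 : 0 ≤ √(a / ε₁) := Real.sqrt_nonneg _
  have hf1n : 7 / 8 * ‖f‖ ≤ ‖f₁‖ := by
    have h1 : ‖f‖ ≤ ‖f - f₁‖ + ‖f₁‖ := by
      calc ‖f‖ = ‖(f - f₁) + f₁‖ := by rw [sub_add_cancel]
        _ ≤ _ := norm_add_le _ _
    have h2 : √(a / ε₁) * ‖f‖ ≤ 1 / 8 * ‖f‖ :=
      mul_le_mul_of_nonneg_right (by linarith) hfpos.le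
    linarith
  have hf1pos : 0 < ‖f₁‖ := by linarith
  have hYf1 : ‖Y f₁ - f₁‖ ≤ 1 / 4 * ‖f‖ := by
    have h1 : Y f₁ - f₁ = (Y f - f) + (-(Y (f - f₁)) + (f - f₁)) := by
      rw [map_sub]
      abel
    rw [h1]
    have h2 : ‖(Y f - f) + (-(Y (f - f₁)) + (f - f₁))‖ ≤ ‖Y f - f‖ + (‖Y (f - f₁)‖ + ‖f - f₁‖) := by
      refine (norm_add_le _ _).trans ?_
      have := norm_add_le (-(Y (f - f₁))) (f - f₁)
      rw [norm_neg] at this
      linarith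
    rw [hY] at h2
    have h3 : (√b + 2 * √(a / ε₁)) * ‖f‖ ≤ 1 / 4 * ‖f‖ :=
      mul_le_mul_of_nonneg_right hab hfpos.le
    linarith
  have hZf1 : ‖Z f₁ - f₁‖ ≤ 1 / 4 * ‖f‖ := by
    rw [← hY (Z f₁ - f₁), map_sub, hYZ, norm_sub_rev]
    exact hYf1
  have hin : 1 / 2 * ‖f₁‖ ^ 2 ≤ inner ℝ (Z f₁) f₁ := by
    have h1 : ‖Z f₁ - f₁‖ ^ 2 = ‖f₁‖ ^ 2 - 2 * inner ℝ (Z f₁) f₁ + ‖f₁‖ ^ 2 := by
      rw [norm_sub_sq_real, hZn]
    have h2 : ‖Z f₁ - f₁‖ ≤ ‖f₁‖ := by linarith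
    have h3 : ‖Z f₁ - f₁‖ ^ 2 ≤ ‖f₁‖ ^ 2 := pow_le_pow_left₀ (norm_nonneg _) h2 2
    linarith
  -- the sum over `S`
  have hSsum : 1 / 4 * ‖f₁‖ ^ 2 ≤ ∑ i ∈ S, (inner ℝ (e i) (Z f₁)) ^ 2 := by
    have h1 : inner ℝ (Z f₁) f₁ = ∑ i ∈ S, inner ℝ (e i) (Z f₁) * x i := by
      rw [inner_eq e, ← Finset.sum_filter_add_sum_filter_not univ (fun i => i ∈ S)]
      have h2 : ∑ i ∈ univ.filter (fun i => ¬ i ∈ S), inner ℝ (e i) (Z f₁) * inner ℝ (e i) f₁ = 0 := by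
        refine Finset.sum_eq_zero fun i hi => ?_
        rw [hf1c, if_neg (Finset.mem_filter.1 hi).2, mul_zero]
      rw [h2, add_zero, Finset.filter_mem_eq_inter, Finset.univ_inter]
      refine Finset.sum_congr rfl fun i hi => ?_
      rw [hf1c, if_pos hi]
    have h3 : ‖f₁‖ ^ 2 = ∑ i ∈ S, x i ^ 2 := by
      rw [norm_sq_eq e, ← Finset.sum_filter_add_sum_filter_not univ (fun i => i ∈ S)]
      have h2 : ∑ i ∈ univ.filter (fun i => ¬ i ∈ S), (inner ℝ (e i) f₁) ^ 2 = 0 := by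
        refine Finset.sum_eq_zero fun i hi => ?_
        rw [hf1c, if_neg (Finset.mem_filter.1 hi).2]
        norm_num
      rw [h2, add_zero, Finset.filter_mem_eq_inter, Finset.univ_inter]
      refine Finset.sum_congr rfl fun i hi => ?_
      rw [hf1c, if_pos hi]
    have h4 := Finset.sum_mul_sq_le_sq_mul_sq S (fun i => inner ℝ (e i) (Z f₁)) x
    rw [← h1, ← h3] at h4
    have h5 : (1 / 2 * ‖f₁‖ ^ 2) ^ 2 ≤ (inner ℝ (Z f₁) f₁) ^ 2 :=
      pow_le_pow_left₀ (by positivity) hin 2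
    have h6 : 0 < ‖f₁‖ ^ 2 := by positivity
    refine le_of_mul_le_mul_right ?_ h6
    calc 1 / 4 * ‖f₁‖ ^ 2 * ‖f₁‖ ^ 2 = (1 / 2 * ‖f₁‖ ^ 2) ^ 2 := by ring
      _ ≤ _ := h5.trans h4
  have h1ε : 0 < 1 - ε₁ := by linarith
  have hμS : ∀ i ∈ S, 1 - ε₁ ≤ μ i := fun i hi => (Finset.mem_filter.1 hi).2
  -- the vector
  let v : E := ∑ i ∈ S, ((μ i ^ m)⁻¹ * x i) • e i
  have hvc : ∀ j, inner ℝ (e j) v = if j ∈ S then (μ j ^ m)⁻¹ * x j else 0 :=
    hcoef fun i => (μ i ^ m)⁻¹ * x i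
  have hLv : (L ^ m) v = f₁ := by
    rw [← e.sum_repr' ((L ^ m) v), ← e.sum_repr' f₁]
    refine Finset.sum_congr rfl fun j _ => ?_
    congr 1
    rw [inner_pow hL (he j), hvc, hf1c]
    split_ifs with hj
    · have hpos : 0 < μ j := h1ε.trans_le (hμS j hj)
      have : μ j ^ m ≠ 0 := (pow_pos hpos m).ne'
      field_simp
    · exact mul_zero _
  have hv0 : v ≠ 0 := by
    intro h
    rw [h, map_zero] at hLv
    rw [← hLv, norm_zero] at hf1pos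
    exact lt_irrefl _ hf1pos
  have hvn : (1 - ε₁) ^ (2 * m) * ‖v‖ ^ 2 ≤ ‖f₁‖ ^ 2 := by
    rw [norm_sq_eq e v, norm_sq_eq e f₁, Finset.mul_sum]
    refine Finset.sum_le_sum fun j _ => ?_
    rw [hvc, hf1c]
    split_ifs with hj
    · have hpos : 0 < μ j := h1ε.trans_le (hμS j hj)
      have h1 : (1 - ε₁) ^ (2 * m) ≤ μ j ^ (2 * m) := pow_le_pow_left₀ h1ε.le (hμS j hj) _
      have h2 : 0 < μ j ^ m := pow_pos hpos m
      calc (1 - ε₁) ^ (2 * m) * ((μ j ^ m)⁻¹ * x j) ^ 2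
          ≤ μ j ^ (2 * m) * ((μ j ^ m)⁻¹ * x j) ^ 2 :=
            mul_le_mul_of_nonneg_right h1 (sq_nonneg _)
        _ = x j ^ 2 := by
            rw [mul_comm 2 m, pow_mul]
            field_simp
    · norm_num
  -- the operator
  have hLm := hs.pow m
  have hL2m := hs.pow (2 * m)
  have happ : ∀ w, ((L ^ m) * Y * (L ^ (2 * m)) * Z * (L ^ m)) w =
      (L ^ m) (Y ((L ^ (2 * m)) (Z ((L ^ m) w)))) := fun w => rfl
  have hZadj : ∀ u v, inner ℝ (Z u) v = inner ℝ u (Y v) := by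
    intro u v
    rw [real_inner_comm, ← hYadj, real_inner_comm]
  have hGs : ∀ u w, inner ℝ (((L ^ m) * Y * (L ^ (2 * m)) * Z * (L ^ m)) u) w =
      inner ℝ u (((L ^ m) * Y * (L ^ (2 * m)) * Z * (L ^ m)) w) := by
    intro u w
    rw [happ, happ, hLm, hYadj, hL2m, hZadj, hLm]
  have hGv : inner ℝ (((L ^ m) * Y * (L ^ (2 * m)) * Z * (L ^ m)) v) v =
      ‖(L ^ m) (Z f₁)‖ ^ 2 := by
    rw [happ, hLm, hLv, hYadj, two_mul, pow_add, Module.End.mul_apply, hLm,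
      real_inner_self_eq_norm_sq]
  have hlow : (1 - ε₁) ^ (2 * m) * (1 / 4 * ‖f₁‖ ^ 2) ≤ ‖(L ^ m) (Z f₁)‖ ^ 2 := by
    calc (1 - ε₁) ^ (2 * m) * (1 / 4 * ‖f₁‖ ^ 2)
        ≤ (1 - ε₁) ^ (2 * m) * ∑ i ∈ S, (inner ℝ (e i) (Z f₁)) ^ 2 :=
          mul_le_mul_of_nonneg_left hSsum (by positivity)
      _ = ∑ i ∈ S, (1 - ε₁) ^ (2 * m) * (inner ℝ (e i) (Z f₁)) ^ 2 := by rw [Finset.mul_sum]
      _ ≤ ∑ i ∈ S, (inner ℝ (e i) ((L ^ m) (Z f₁))) ^ 2 := by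
          refine Finset.sum_le_sum fun i hi => ?_
          rw [inner_pow hL (he i), mul_pow, ← pow_mul, mul_comm m 2]
          exact mul_le_mul_of_nonneg_right (pow_le_pow_left₀ h1ε.le (hμS i hi) _) (sq_nonneg _)
      _ ≤ ∑ i, (inner ℝ (e i) ((L ^ m) (Z f₁))) ^ 2 :=
          Finset.sum_le_univ_sum_of_nonneg fun i => sq_nonneg _
      _ = ‖(L ^ m) (Z f₁)‖ ^ 2 := (norm_sq_eq e _).symm
  refine exists_eig _ hGs v hv0 ((1 - ε₁) ^ (4 * m) / 4) ?_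
  rw [hGv]
  refine le_trans ?_ hlow
  have h4 : (1 - ε₁) ^ (4 * m) = (1 - ε₁) ^ (2 * m) * (1 - ε₁) ^ (2 * m) := by
    rw [← pow_add]
    congr 1
    ring
  rw [h4]
  have h5 : (0 : ℝ) ≤ (1 - ε₁) ^ (2 * m) := by positivity
  calc (1 - ε₁) ^ (2 * m) * (1 - ε₁) ^ (2 * m) / 4 * ‖v‖ ^ 2
      = (1 - ε₁) ^ (2 * m) * (1 / 4 * ((1 - ε₁) ^ (2 * m) * ‖v‖ ^ 2)) := by ring
    _ ≤ (1 - ε₁) ^ (2 * m) * (1 / 4 * ‖f₁‖ ^ 2) :=
        mul_le_mul_of_nonneg_left (by linarith) h5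

end Pool.Agent.Helper93.AKOPA
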