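import Pool.Agent.Helper6.AK.DGoals

/-!
# CMS: density of the even permutations with cycles of lengths `M` and `s`
-/

namespace Pool.Agent.Helper93.AKCMS

open Equiv Finset Pool.Agent.Helper15.An Pool.Agent.Helper6.AK
open scoped Nat

/-- the number of permutations of `Fin n` with cycle type `M ::ₘ s ::ₘ m` -/
theorem count_type {n M s : ℕ} (hs : 2 ≤ s) (hM : n < 2 * M) (hs2 : n < M + 2 * s)
    (h : M + s + 2 ≤ n) {m : Multiset ℕ} (hm : m.sum ≤ n - (M + s)) (hm2 : ∀ a ∈ m, 2 ≤ a) :
    #({g : Perm (Fin n) | g.cycleType = M ::ₘ s ::ₘ m} : Finset (Perm (Fin n))) * (M * s) *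
      (n - (M + s))! = n ! *
      #({g : Perm (Fin (n - (M + s))) | g.cycleType = m} : Finset (Perm (Fin (n - (M + s))))) := by
  have hsm : ∀ a ∈ m, a ≤ n - (M + s) := fun a ha =>
    (Multiset.single_le_sum (fun x _ => Nat.zero_le x) a ha).trans hm
  have hsn : s ∉ m := fun hh => by
    have := hsm s hh
    omega
  have hMs : M ≠ s := by omega
  have hMn : M ∉ s ::ₘ m := fun hh => by
    rcases Multiset.mem_cons.1 hh with h1 | h1
    · exact hMs h1
    · have := hsm M h1
      omega
  have e1 := Perm.card_of_cycleType_mul_eq (Fin n) (M ::ₘ s ::ₘ m)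
  have e2 := Perm.card_of_cycleType_mul_eq (Fin (n - (M + s))) m
  rw [if_pos] at e1
  swap
  · refine ⟨?_, ?_⟩
    · rw [Multiset.sum_cons, Multiset.sum_cons, Fintype.card_fin]
      omega
    · intro a ha
      rcases Multiset.mem_cons.1 ha with rfl | ha
      · omega
      · rcases Multiset.mem_cons.1 ha with rfl | ha
        · exact hs
        · exact hm2 a ha
  rw [if_pos ⟨by rwa [Fintype.card_fin], hm2⟩] at e2
  rw [Fintype.card_fin] at e1 e2
  have hprod : ∏ k ∈ (M ::ₘ s ::ₘ m).toFinset, ((M ::ₘ s ::ₘ m).count k)! =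
      ∏ k ∈ m.toFinset, (m.count k)! := by
    rw [Multiset.toFinset_cons, Multiset.toFinset_cons, Finset.prod_insert, Finset.prod_insert]
    · rw [Multiset.count_cons_self, Multiset.count_eq_zero_of_notMem hMn,
        Multiset.count_cons_of_ne hMs.symm, Multiset.count_cons_self,
        Multiset.count_eq_zero_of_notMem hsn]
      simp only [zero_add, Nat.factorial_one, one_mul]
      refine Finset.prod_congr rfl fun k hk => ?_
      have hk' : k ∈ m := Multiset.mem_toFinset.1 hk
      have hkM : k ≠ M := by
        intro hh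
        rw [hh] at hk'
        exact hMn (Multiset.mem_cons_of_mem hk')
      have hks : k ≠ s := by
        intro hh
        rw [hh] at hk'
        exact hsn hk'
      rw [Multiset.count_cons_of_ne hkM, Multiset.count_cons_of_ne hks]
    · rwa [Multiset.mem_toFinset]
    · rwa [← Multiset.toFinset_cons, Multiset.mem_toFinset]
  rw [hprod, Multiset.prod_cons, Multiset.prod_cons, Multiset.sum_cons, Multiset.sum_cons] at e1
  have hsub : n - (M + (s + m.sum)) = n - (M + s) - m.sum := by omega
  rw [hsub] at e1
  rw [← e1, ← e2]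
  ring

/-- half of the permutations have a given sign -/
theorem two_mul_card_sign {r : ℕ} (hr : 2 ≤ r) (ε : ℤˣ) :
    2 * #({g : Perm (Fin r) | Perm.sign g = ε} : Finset (Perm (Fin r))) = r ! := by
  classical
  have : Nontrivial (Fin r) := Fin.nontrivial_iff_two_le.2 hr
  have h1 : #({g : Perm (Fin r) | Perm.sign g = 1} : Finset (Perm (Fin r))) =
      Fintype.card (alternatingGroup (Fin r)) := by
    rw [Fintype.card_subtype]
    congr 1
    refine Finset.filter_congr fun g _ => ?_
    rw [Perm.mem_alternatingGroup]
  have h2 := two_mul_card_alternatingGroup (α := Fin r)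
  rw [← h1, Fintype.card_perm, Fintype.card_fin] at h2
  rcases Int.units_eq_one_or ε with rfl | rfl
  · exact h2
  · have h3 := Finset.card_filter_add_card_filter_not (s := (univ : Finset (Perm (Fin r))))
      (fun g => Perm.sign g = 1)
    rw [Finset.card_univ, Fintype.card_perm, Fintype.card_fin] at h3
    have h4 : ({g : Perm (Fin r) | ¬ Perm.sign g = 1} : Finset (Perm (Fin r))) =
        ({g : Perm (Fin r) | Perm.sign g = -1} : Finset (Perm (Fin r))) := by
      refine Finset.filter_congr fun g _ => ?_
      constructor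
      · intro h
        exact (Int.units_eq_one_or _).resolve_left h
      · intro h h'
        rw [h'] at h
        exact absurd h (by decide)
    rw [h4] at h3
    omega

/-- the even permutations in `Perm (Fin n)` with cycles of lengths `M` and `s` -/
noncomputable def PMS (n M s : ℕ) : Finset (Perm (Fin n)) :=
  univ.filter fun g => Perm.sign g = 1 ∧ M ∈ g.cycleType ∧ s ∈ g.cycleType

theorem card_PMS (n M s : ℕ) : (CycMS n M s).card = (PMS n M s).card := by
  classical
  refine Finset.card_bij (fun u _ => (u : Perm (Fin n))) ?_ ?_ ?_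
  · intro u hu
    have hu' := (Finset.mem_filter.1 hu).2
    exact Finset.mem_filter.2 ⟨Finset.mem_univ _, Perm.mem_alternatingGroup.1 u.2, hu'⟩
  · intro u _ v _ huv
    exact Subtype.ext huv
  · intro g hg
    have hg' := (Finset.mem_filter.1 hg).2
    exact ⟨⟨g, Perm.mem_alternatingGroup.2 hg'.1⟩, Finset.mem_filter.2 ⟨Finset.mem_univ _, hg'.2⟩,
      rfl⟩

/-- the sign as a function of the cycle type -/
def sg (m : Multiset ℕ) : ℤˣ := (-1) ^ (m.sum + Multiset.card m)

theorem sg_cons (M s : ℕ) (m : Multiset ℕ) : sg (M ::ₘ s ::ₘ m) = (-1) ^ (M + s) * sg m := by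
  unfold sg
  rw [Multiset.sum_cons, Multiset.sum_cons, Multiset.card_cons, Multiset.card_cons, ← pow_add]
  have h : M + (s + m.sum) + (Multiset.card m + 1 + 1) = M + s + (m.sum + Multiset.card m) + 2 := by
    ring
  rw [h, pow_add _ _ 2]
  simp

theorem main {n M s : ℕ} (hs : 2 ≤ s) (hM : n < 2 * M) (hs2 : n < M + 2 * s)
    (h : M + s + 2 ≤ n) : 2 * ((PMS n M s).card * (M * s)) = n ! := by
  classical
  have hMs : M ≠ s := by omega
  set r := n - (M + s) with hr
  set T : Finset (Multiset ℕ) := (univ : Finset (Perm (Fin r))).image Perm.cycleType with hT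
  have hTm : ∀ m ∈ T, m.sum ≤ r ∧ ∀ a ∈ m, 2 ≤ a := by
    intro m hm
    obtain ⟨g, _, hg⟩ := Finset.mem_image.1 hm
    have := (Perm.exists_with_cycleType_iff (Fin r) (m := m)).1 ⟨g, hg⟩
    rwa [Fintype.card_fin] at this
  have hfib : (PMS n M s).card = ∑ m ∈ T,
      #((PMS n M s).filter fun g => (g.cycleType.erase M).erase s = m) := by
    refine Finset.card_eq_sum_card_fiberwise fun g hg => ?_
    have hg' := (Finset.mem_filter.1 hg).2
    have h1 : g.cycleType = M ::ₘ s ::ₘ (g.cycleType.erase M).erase s := by
      rw [Multiset.cons_erase, Multiset.cons_erase hg'.2.1]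
      rw [Multiset.mem_erase_of_ne hMs.symm]
      exact hg'.2.2
    have h2 := (Perm.exists_with_cycleType_iff (Fin n) (m := g.cycleType)).1 ⟨g, rfl⟩
    have h3 : (g.cycleType.erase M).erase s ∈ T := by
      rw [hT, Finset.mem_image]
      have h4 := (Perm.exists_with_cycleType_iff (Fin r)
        (m := (g.cycleType.erase M).erase s)).2 ?_
      · obtain ⟨k, hk⟩ := h4
        exact ⟨k, Finset.mem_univ _, hk⟩
      · rw [Fintype.card_fin] at h2 ⊢
        refine ⟨?_, fun a ha => h2.2 a ?_⟩
        · have h5 := h2.1
          rw [h1, Multiset.sum_cons, Multiset.sum_cons] at h5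
          omega
        · exact Multiset.mem_of_mem_erase (Multiset.mem_of_mem_erase ha)
    exact h3
  have hfib2 : ∀ m ∈ T, #((PMS n M s).filter fun g => (g.cycleType.erase M).erase s = m) *
      (M * s) * r ! = n ! * #(({g : Perm (Fin r) | Perm.sign g = (-1) ^ (M + s)} :
        Finset (Perm (Fin r))).filter fun g => g.cycleType = m) := by
    intro m hm
    have hcount := count_type hs hM hs2 h (hTm m hm).1 (hTm m hm).2
    by_cases hsg : sg m = (-1) ^ (M + s)
    · have e1 : ((PMS n M s).filter fun g => (g.cycleType.erase M).erase s = m) =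
          ({g : Perm (Fin n) | g.cycleType = M ::ₘ s ::ₘ m} : Finset (Perm (Fin n))) := by
        ext g
        simp only [PMS, Finset.mem_filter, Finset.mem_univ, true_and]
        constructor
        · rintro ⟨⟨_, h1, h2⟩, rfl⟩
          rw [Multiset.cons_erase, Multiset.cons_erase h1]
          rw [Multiset.mem_erase_of_ne hMs.symm]
          exact h2
        · intro hg
          refine ⟨⟨?_, ?_, ?_⟩, ?_⟩
          · have h5 : Perm.sign g = sg g.cycleType := Perm.sign_of_cycleType g
            rw [h5, hg, sg_cons, hsg, ← mul_pow]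
            simp
          · rw [hg]
            exact Multiset.mem_cons_self _ _
          · rw [hg]
            exact Multiset.mem_cons_of_mem (Multiset.mem_cons_self _ _)
          · rw [hg, Multiset.erase_cons_head, Multiset.erase_cons_head]
      have e2 : (({g : Perm (Fin r) | Perm.sign g = (-1) ^ (M + s)} :
          Finset (Perm (Fin r))).filter fun g => g.cycleType = m) =
          ({g : Perm (Fin r) | g.cycleType = m} : Finset (Perm (Fin r))) := by
        ext g
        simp only [Finset.mem_filter, Finset.mem_univ, true_and]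
        constructor
        · exact fun hh => hh.2
        · intro hg
          refine ⟨?_, hg⟩
          have h5 : Perm.sign g = sg g.cycleType := Perm.sign_of_cycleType g
          rw [h5, hg, hsg]
      rw [e1, e2]
      exact hcount
    · have e1 : ((PMS n M s).filter fun g => (g.cycleType.erase M).erase s = m) = ∅ := by
        refine Finset.filter_eq_empty_iff.2 ?_
        intro g hg hgm
        apply hsg
        have hg' := (Finset.mem_filter.1 hg).2
        have h1 : g.cycleType = M ::ₘ s ::ₘ m := by
          rw [← hgm, Multiset.cons_erase, Multiset.cons_erase hg'.2.1]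
          rw [Multiset.mem_erase_of_ne hMs.symm]
          exact hg'.2.2
        have h5 : Perm.sign g = sg g.cycleType := Perm.sign_of_cycleType g
        rw [hg'.1, h1, sg_cons] at h5
        have h6 : ((-1 : ℤˣ) ^ (M + s)) * (-1) ^ (M + s) = 1 := by
          rw [← mul_pow]
          simp
        calc sg m = ((-1) ^ (M + s) * (-1) ^ (M + s)) * sg m := by rw [h6, one_mul]
          _ = (-1) ^ (M + s) * ((-1) ^ (M + s) * sg m) := by rw [mul_assoc]
          _ = (-1) ^ (M + s) := by rw [← h5, mul_one]
      have e2 : (({g : Perm (Fin r) | Perm.sign g = (-1) ^ (M + s)} :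
          Finset (Perm (Fin r))).filter fun g => g.cycleType = m) = ∅ := by
        refine Finset.filter_eq_empty_iff.2 ?_
        intro g hg hgm
        apply hsg
        have h5 : Perm.sign g = sg g.cycleType := Perm.sign_of_cycleType g
        rw [← hgm, ← h5]
        exact (Finset.mem_filter.1 hg).2
      rw [e1, e2]
      simp
  have hfib3 : #({g : Perm (Fin r) | Perm.sign g = (-1) ^ (M + s)} : Finset (Perm (Fin r))) =
      ∑ m ∈ T, #(({g : Perm (Fin r) | Perm.sign g = (-1) ^ (M + s)} :
        Finset (Perm (Fin r))).filter fun g => g.cycleType = m) := by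
    refine Finset.card_eq_sum_card_fiberwise fun g _ => ?_
    exact Finset.mem_coe.2 (Finset.mem_image_of_mem _ (Finset.mem_univ g))
  have hsum : (PMS n M s).card * (M * s) * r ! = n ! *
      #({g : Perm (Fin r) | Perm.sign g = (-1) ^ (M + s)} : Finset (Perm (Fin r))) := by
    rw [hfib, Finset.sum_mul, Finset.sum_mul, hfib3, Finset.mul_sum]
    exact Finset.sum_congr rfl hfib2
  have h2 := two_mul_card_sign (r := r) (by omega) ((-1) ^ (M + s))
  have hpos : 0 < r ! := Nat.factorial_pos r
  refine Nat.eq_of_mul_eq_mul_right hpos ?_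
  calc 2 * ((PMS n M s).card * (M * s)) * r ! = 2 * ((PMS n M s).card * (M * s) * r !) := by ring
    _ = n ! * (2 * #({g : Perm (Fin r) | Perm.sign g = (-1) ^ (M + s)} :
        Finset (Perm (Fin r)))) := by rw [hsum]; ring
    _ = n ! * r ! := by rw [h2]

theorem thm : S_CMS := by
  intro n M s hs hM hs2 h
  have : Nontrivial (Fin n) := Fin.nontrivial_iff_two_le.2 (by omega)
  have h1 := main hs hM hs2 h
  have h2 := two_mul_card_alternatingGroup (α := Fin n)
  rw [Fintype.card_perm, Fintype.card_fin, ← h1] at h2
  rw [card_PMS]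
  exact (Nat.eq_of_mul_eq_mul_left (by norm_num) h2).symm

end Pool.Agent.Helper93.AKCMS
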